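import Pool.Agent.Q283.IN.C
import Pool.Agent.Q283.GM.X49
import Pool.Agent.Q283.XF.Main

/-!
# Twists with the same matrix, and the fields generated by their square roots
-/

set_option autoImplicit false
set_option linter.unusedSectionVars false

open scoped Classical

namespace Q283.IN

open Finset Filter Topology
open Q283.GM hiding DD rk_eq
open Q283.GW
open Pool.Agent.Y698 (Inq AX)
open Pool.Agent.Y698.SG (Spl Gp mat nq n4)
open Pool.Agent.Y687 (DD qs DD_natAbs)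
open Pool.Agent.Y687.MQ (ZB Ind)
open Pool.Agent.Y687.JQ (DD_mul DD_ne prod_symmDiff isSquare_of_mul)
open Pool.Agent.Y703.CQ (nr c2 Sp)
open Pool.Agent.Y723.QT (Kl F2)
open Pool.Agent.TH841.NF (EF)
open Q283.XF (nf)
open Q283.J2 (RZ49 trn49 delta49 critQ lfun49 finite_set ca cb disc_b)

/-- a prime which does not change the matrix of `S` -/
structure Nt (S : Finset ℕ) (r : ℕ) : Prop where
  pr : r.Prime
  m4 : r % 4 = 1
  nA : ¬ ρ49.Φ.A r
  sq : ∀ p ∈ PA S, IsSquare (p : ZMod r)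

/-- the reciprocity law -/
theorem sq_symm {p q : ℕ} (hp : p.Prime) (hp4 : p % 4 = 1) (hq : q.Prime) (hq4 : q % 4 = 1) :
    IsSquare (p : ZMod q) ↔ IsSquare (q : ZMod p) := by
  have : Fact p.Prime := ⟨hp⟩
  have : Fact q.Prime := ⟨hq⟩
  have hq2 : q ≠ 2 := by rintro rfl; norm_num at hq4
  exact (ZMod.exists_sq_eq_prime_iff_of_mod_four_eq_one hp4 hq2).symm

theorem QA_CF {S : Finset ℕ} (h : CF S) {J : Finset ℕ} (hJ : ∀ r ∈ J, ¬ ρ49.Φ.A r) :
    QA (S ∪ J) = QA S ∪ J ∧ PA (S ∪ J) = PA S := by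
  unfold QA PA
  rw [filter_union, filter_union]
  constructor
  · congr 1
    exact filter_true_of_mem hJ
  · have h1 : J.filter (fun p => ρ49.Φ.A p) = ∅ := filter_false_of_mem hJ
    rw [h1, union_empty]

/-- **the corank does not change** -/
theorem rk_union {S J : Finset ℕ} (hS : CF S) (hJ : ∀ r ∈ J, Nt S r) (hdis : Disjoint S J) :
    rk ρ49.Φ nf (S ∪ J) = rk ρ49.Φ nf S := by
  obtain ⟨e1, e2⟩ := QA_CF hS fun r hr => (hJ r hr).nA
  have key : ∀ Q P Q' P' : Finset ℕ, Q' = Q → P' = P → ∀ (hm : mat Q P = mat (QA S) P),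
      Module.finrank (ZMod 2) (LinearMap.ker (mat Q' P').mulVecLin) =
      Module.finrank (ZMod 2) (LinearMap.ker (mat (QA S) P).mulVecLin) := by
    rintro Q P _ _ rfl rfl hm
    rw [hm]
  rw [Q283.GW.rk_eq, Q283.GW.rk_eq]
  refine key _ _ _ _ e1 e2 ?_
  ext i j
  unfold mat
  rw [Matrix.of_apply, Matrix.of_apply]
  by_cases hij : i = j
  · rw [if_pos hij, if_pos hij]
    have hdis' : Disjoint (QA S) J := by
      unfold QA
      exact disjoint_of_subset_left (filter_subset _ _) hdis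
    rw [sum_union hdis', Finset.sum_eq_zero (s := J), add_zero]
    intro r hr
    have hi := i.2
    have hiS : (i : ℕ) ∈ S := (Finset.mem_filter.1 hi).1
    have h1 := (hJ r hr).sq i hi
    unfold nq
    rw [if_pos ((sq_symm (hS i hiS).1 (hS i hiS).2 (hJ r hr).pr (hJ r hr).m4).1 h1)]
  · rw [if_neg hij, if_neg hij]

/-- products of numbers composed of the primes of a set -/
theorem exists_R {R : ℕ → Prop} (hR : ∀ r, R r → r.Prime ∧ r % 4 = 1) {n : ℕ} {d : Fin n → ℕ}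
    (hd : ∀ i, Squarefree (d i) ∧ ∀ p ∈ (d i).primeFactors, R p) (T : Finset (Fin n)) :
    ∃ (J : Finset ℕ) (k : ℤ), (∀ p ∈ J, R p) ∧ k ≠ 0 ∧ ∏ i ∈ T, (d i : ℤ) = DD J * k ^ 2 := by
  have hCF : ∀ J : Finset ℕ, (∀ p ∈ J, R p) → CF J := fun J hJ p hp => hR p (hJ p hp)
  induction T using Finset.induction_on with
  | empty =>
    refine ⟨∅, 1, by simp, one_ne_zero, ?_⟩
    simp [DD]
  | insert a T haT ih =>
    obtain ⟨J, k, hJ, hk, he⟩ := ih
    have hda : (d a : ℤ) = DD (d a).primeFactors := by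
      rw [DD_CF (hCF _ (hd a).2), Nat.prod_primeFactors_of_squarefree (hd a).1]
    refine ⟨symmDiff J (d a).primeFactors, DD (J ∩ (d a).primeFactors) * k, ?_, ?_, ?_⟩
    · intro p hp
      rcases Finset.mem_symmDiff.1 hp with h | h
      · exact hJ p h.1
      · exact (hd a).2 p h.1
    · exact mul_ne_zero (DD_ne fun p hp => (hR p (hJ p (Finset.mem_inter.1 hp).1)).1.ne_zero) hk
    · rw [Finset.prod_insert haT, he, hda]
      linear_combination (k ^ 2) * DD_mul J (d a).primeFactors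

theorem DD_union {S J : Finset ℕ} (hdis : Disjoint S J) : DD S * DD J = DD (S ∪ J) := by
  unfold DD
  rw [Finset.prod_union hdis]

/-- squarefree numbers different from one are not squares -/
theorem not_sq_prime {p : ℕ} (hp : p.Prime) {J : Finset ℕ} (hJ : ∀ q ∈ J, q.Prime) (hpJ : p ∉ J) :
    ¬ IsSquare ((p : ℤ) * ((∏ q ∈ J, q : ℕ) : ℤ)) := by
  intro h
  have h1 : IsSquare (p * ∏ q ∈ J, q) := by
    have : ((p * ∏ q ∈ J, q : ℕ) : ℤ) = (p : ℤ) * ((∏ q ∈ J, q : ℕ) : ℤ) := by push_cast; rfl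
    rw [← this] at h
    obtain ⟨z, hz⟩ := h
    refine ⟨z.natAbs, ?_⟩
    have := congrArg Int.natAbs hz
    rw [Int.natAbs_natCast, Int.natAbs_mul] at this
    exact this
  obtain ⟨z, hz⟩ := h1
  have h2 : p ∣ z := by
    have : p ∣ z * z := ⟨_, hz.symm⟩
    rcases hp.dvd_mul.1 this with h | h <;> exact h
  obtain ⟨w, rfl⟩ := h2
  have h3 : ∏ q ∈ J, q = p * (w * w) := by
    apply Nat.eq_of_mul_eq_mul_left hp.pos
    rw [hz]; ring
  exact Pool.Agent.Y698.SG.not_dvd_pr hp hJ hpJ ⟨_, h3⟩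

theorem not_sq_set {J : Finset ℕ} (hJ : ∀ q ∈ J, q.Prime) (hne : J.Nonempty) :
    ¬ IsSquare ((∏ q ∈ J, q : ℕ) : ℤ) := by
  obtain ⟨p, hp⟩ := hne
  have h := not_sq_prime (hJ p hp) (J := J.erase p) (fun q hq => hJ q (Finset.mem_of_mem_erase hq))
    (Finset.notMem_erase p J)
  rw [← Nat.cast_mul, Finset.mul_prod_erase J (fun q => q) hp] at h
  exact h

/-- **over the field** -/
theorem field49 {M : ℤ} (hM : M ≠ 0) {n : ℕ} {d : Fin n → ℤ} (hd : Ind d)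
    (h : ∀ T : Finset (Fin n), ∃ (S : Finset ℕ) (k : ℤ), CF S ∧ rk ρ49.Φ nf S = 0 ∧ k ≠ 0 ∧
      M * ∏ i ∈ T, d i = DD S * k ^ 2)
    (K : Type) [Field K] [NumberField K] (x : Fin n → K) (hx : ∀ i, x i ^ 2 = (d i : K))
    (hK : IntermediateField.adjoin ℚ (Set.range x) = ⊤) :
    ((∃ F : ℂ → ℂ, Pool.Agent.Y19.QT.IsLFunK K (-2835 * M ^ 2) (-71442 * M ^ 3) (∏ i, d i) F ∧
      F 1 ≠ 0) ∧ Finite (Pool.Agent.Y19.QT.EK K (-2835 * M ^ 2) (-71442 * M ^ 3))) ∧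
    F2 (Pool.Agent.TH841.NF.D.Sha (EF (-2835 * M ^ 2) (-71442 * M ^ 3) K)) ∧
      Kl (Pool.Agent.TH841.NF.D.Sha (EF (-2835 * M ^ 2) (-71442 * M ^ 3) K)) n := by
  have hab : 4 * (-2835 * M ^ 2) ^ 3 + 27 * (-71442 * M ^ 3) ^ 2 ≠ 0 := by
    have e : 4 * (-2835 * M ^ 2) ^ 3 + 27 * (-71442 * M ^ 3) ^ 2 =
        (4 * (-2835) ^ 3 + 27 * (-71442) ^ 2) * M ^ 6 := by ring
    rw [e]
    exact mul_ne_zero (by norm_num) (pow_ne_zero 6 hM)
  refine ⟨Pool.Agent.Y687.MQ.mq_zero hd hab (fun T => ?_) K x hx hK, ?_⟩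
  · obtain ⟨S, k, hS, hG, hk, he⟩ := h T
    have h1 := Pool.Agent.Y687.MQ.ZB_scale (disc_b true) hS.ne hk (zb_CF hS hG)
    have e1 : -2835 * M ^ 2 * (∏ i ∈ T, d i) ^ 2 = ca true * (DD S * k ^ 2) ^ 2 := by
      rw [← he]
      show _ = -2835 * _
      ring
    have e2 : -71442 * M ^ 3 * (∏ i ∈ T, d i) ^ 3 = cb true * (DD S * k ^ 2) ^ 3 := by
      rw [← he]
      show _ = -71442 * _
      ring
    rw [e1, e2]
    exact h1
  · have h3 : Kl (Pool.Agent.TH841.NF.D.Sha (EF (-2835 * M ^ 2) (-71442 * M ^ 3) K)) (n + 0) := by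
      refine Pool.Agent.Y723.QT.base_kl (r := x) (d := fun i => (d i : ℚ)) (fun i => ?_)
        (fun i => by exact_mod_cast Q283.J2.ind_ne hd i) hK fun T => ?_
      · rw [hx i, map_intCast]
      · rw [Pool.Agent.TH841.NF.tw_Sh]
        obtain ⟨S, k, hS, hG, hk, he⟩ := h T
        have h4 := ((rz_sq49 hS.ne hk).2 ((rz_CF hS).2 hG)).2
        rw [← he] at h4
        have e1 : (∏ i ∈ T, d i) ^ 2 * (-2835 * M ^ 2) = -2835 * (M * ∏ i ∈ T, d i) ^ 2 := by ring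
        have e2 : (∏ i ∈ T, d i) ^ 3 * (-71442 * M ^ 3) = -71442 * (M * ∏ i ∈ T, d i) ^ 3 := by
          ring
        rw [e1, e2]
        exact Pool.Agent.Y687.JQ.kl_zero h4
    rw [add_zero] at h3
    have he' : (63 * M) ^ 3 + (-2835 * M ^ 2) * (63 * M) + (-71442 * M ^ 3) = 0 := by
      ring
    exact ⟨(Pool.Agent.Y723.QT.f2_iff (Pool.Agent.Y723.QT.tf_EF (F := K) hab he')).2 ⟨n, h3⟩, h3⟩

end Q283.IN
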