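import Pool.Agent.W612.RS.Mq1
import Pool.Agent.Q269.NagellLutz
import Pool.Agent.Y73.QMQ1.Gal

/-!
# Fields over which a twist of `X_0(49)` has two points
-/

set_option autoImplicit false

open WeierstrassCurve

namespace Q283.IN

open Pool.Agent.W307.RS (ShK)
open Pool.Agent.W612.RS

/-- the twist by `M` has only the points at infinity and `(63 M, 0)` -/
def Two (K : Type) [Field K] (M : K) : Prop :=
  ∀ x y : K, y ^ 2 = x ^ 3 + -2835 * M ^ 2 * x + -71442 * M ^ 3 → x = 63 * M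

/-! ### Over the rational numbers -/

theorem int_of_sq {v : ℚ} {n : ℤ} (h : v ^ 2 = n) : ∃ m : ℤ, v = m := by
  have h1 : IsIntegral ℤ v := by
    refine IsIntegral.of_pow (n := 2) (by norm_num) ?_
    rw [h]
    exact isIntegral_algebraMap (R := ℤ) (x := n)
  obtain ⟨m, hm⟩ := IsIntegrallyClosed.isIntegral_iff.1 h1
  exact ⟨m, hm.symm⟩

theorem three_sq {a : ℤ} (h : (3 : ℤ) ∣ a ^ 2) : (3 : ℤ) ∣ a :=
  Int.Prime.dvd_pow' (by norm_num) h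

/-- the equation with the root at the origin -/
theorem uv {M : ℤ} (h3 : ¬ (3 : ℤ) ∣ M)
    (H : ∀ u v : ℚ, v ^ 2 = u ^ 3 + ((21 * M : ℤ) : ℚ) * u ^ 2 + ((112 * M ^ 2 : ℤ) : ℚ) * u →
      ∃ n : ℤ, u = n) {u v : ℚ}
    (h : v ^ 2 = u ^ 3 + ((21 * M : ℤ) : ℚ) * u ^ 2 + ((112 * M ^ 2 : ℤ) : ℚ) * u) : v = 0 := by
  have hM0 : M ≠ 0 := by rintro rfl; exact h3 (dvd_zero 3)
  have hMQ : (M : ℚ) ≠ 0 := by exact_mod_cast hM0
  have hM2 : ∃ t : ℤ, M ^ 2 = 3 * t + 1 := by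
    have h1 : M % 3 = 1 ∨ M % 3 = 2 := by omega
    rcases h1 with h1 | h1
    · refine ⟨3 * (M / 3) ^ 2 + 2 * (M / 3), ?_⟩
      have h2 : M = 3 * (M / 3) + 1 := by omega
      nlinarith [h2]
    · refine ⟨3 * (M / 3) ^ 2 + 4 * (M / 3) + 1, ?_⟩
      have h2 : M = 3 * (M / 3) + 2 := by omega
      nlinarith [h2]
  -- doubling
  have dbl : ∀ u v : ℚ, v ≠ 0 →
      v ^ 2 = u ^ 3 + ((21 * M : ℤ) : ℚ) * u ^ 2 + ((112 * M ^ 2 : ℤ) : ℚ) * u →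
      ∃ w : ℚ, w ^ 2 = ((u ^ 2 - 112 * M ^ 2) ^ 2 / (4 * v ^ 2)) ^ 3 +
        ((21 * M : ℤ) : ℚ) * ((u ^ 2 - 112 * M ^ 2) ^ 2 / (4 * v ^ 2)) ^ 2 +
        ((112 * M ^ 2 : ℤ) : ℚ) * ((u ^ 2 - 112 * M ^ 2) ^ 2 / (4 * v ^ 2)) := by
    intro u v hv h
    refine ⟨(u ^ 2 - 112 * M ^ 2) * (u ^ 4 + 2 * (21 * M) * u ^ 3 + 6 * (112 * M ^ 2) * u ^ 2 +
      2 * (21 * M) * (112 * M ^ 2) * u + (112 * M ^ 2) ^ 2) / (8 * v ^ 3), ?_⟩
    push_cast at h ⊢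
    have key : (u ^ 4 + 2 * (21 * (M : ℚ)) * u ^ 3 + 6 * (112 * M ^ 2) * u ^ 2 +
      2 * (21 * M) * (112 * M ^ 2) * u + (112 * M ^ 2) ^ 2) ^ 2 =
      (u ^ 2 - 112 * M ^ 2) ^ 4 + 4 * (21 * M) * v ^ 2 * (u ^ 2 - 112 * M ^ 2) ^ 2 +
        16 * (112 * M ^ 2) * v ^ 4 := by
      have e : v ^ 4 = (v ^ 2) ^ 2 := by ring
      rw [e, h]
      ring
    have e1 : ((u ^ 2 - 112 * (M : ℚ) ^ 2) * (u ^ 4 + 2 * (21 * M) * u ^ 3 +
        6 * (112 * M ^ 2) * u ^ 2 + 2 * (21 * M) * (112 * M ^ 2) * u + (112 * M ^ 2) ^ 2) /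
          (8 * v ^ 3)) ^ 2 = (u ^ 2 - 112 * (M : ℚ) ^ 2) ^ 2 * ((u ^ 4 + 2 * (21 * M) * u ^ 3 +
        6 * (112 * M ^ 2) * u ^ 2 + 2 * (21 * M) * (112 * M ^ 2) * u + (112 * M ^ 2) ^ 2) ^ 2) /
          (64 * v ^ 6) := by
      field_simp
      ring
    rw [e1, key]
    field_simp
    ring
  have ints : ∀ u v : ℚ, v ^ 2 = u ^ 3 + ((21 * M : ℤ) : ℚ) * u ^ 2 + ((112 * M ^ 2 : ℤ) : ℚ) * u →
      ∃ a b : ℤ, u = a ∧ v = b ∧ b ^ 2 = a ^ 3 + 21 * M * a ^ 2 + 112 * M ^ 2 * a := by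
    intro u v h
    obtain ⟨a, rfl⟩ := H u v h
    have h1 : v ^ 2 = ((a ^ 3 + 21 * M * a ^ 2 + 112 * M ^ 2 * a : ℤ) : ℚ) := by
      rw [h]; push_cast; ring
    obtain ⟨b, rfl⟩ := int_of_sq h1
    exact ⟨a, b, rfl, rfl, by exact_mod_cast h1⟩
  -- the case `3 ∣ u`
  have case0 : ∀ u v : ℚ, v ^ 2 = u ^ 3 + ((21 * M : ℤ) : ℚ) * u ^ 2 + ((112 * M ^ 2 : ℤ) : ℚ) * u →
      (∃ a : ℤ, u = (3 * a : ℤ)) → v = 0 := by
    intro u v h ha
    by_contra hv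
    obtain ⟨a, ha⟩ := ha
    obtain ⟨a', b, ha', hb, hab⟩ := ints u v h
    have haa : a' = 3 * a := by
      rw [ha'] at ha
      exact_mod_cast ha
    subst haa
    obtain ⟨w, hw⟩ := dbl u v hv h
    obtain ⟨c, e, hc, -, -⟩ := ints _ w hw
    have hv2 : (4 * v ^ 2 : ℚ) ≠ 0 := mul_ne_zero (by norm_num) (pow_ne_zero 2 hv)
    rw [div_eq_iff hv2, ha', hb] at hc
    have h1 : ((3 * a) ^ 2 - 112 * M ^ 2) ^ 2 = c * (4 * b ^ 2) := by exact_mod_cast hc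
    have h2 : (3 : ℤ) ∣ b := by
      apply three_sq
      rw [hab]
      exact ⟨9 * a ^ 3 + 63 * M * a ^ 2 + 112 * M ^ 2 * a, by ring⟩
    obtain ⟨b', rfl⟩ := h2
    have h3' : (3 : ℤ) ∣ (3 * a) ^ 2 - 112 * M ^ 2 := by
      apply three_sq
      rw [h1]
      exact ⟨c * (4 * (3 * b' ^ 2)), by ring⟩
    obtain ⟨t, ht⟩ := hM2
    rw [ht] at h3'
    obtain ⟨s, hs⟩ := h3'
    have h4 : (3 : ℤ) ∣ 1 := ⟨3 * a ^ 2 - 112 * t - 37 - s, by linear_combination -hs⟩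
    omega
  by_contra hv
  obtain ⟨a, b, ha, hb, hab⟩ := ints u v h
  have hv2 : (4 * v ^ 2 : ℚ) ≠ 0 := mul_ne_zero (by norm_num) (pow_ne_zero 2 hv)
  obtain ⟨w, hw⟩ := dbl u v hv h
  obtain ⟨c, e, hc, he, -⟩ := ints _ w hw
  have hc' := hc
  rw [div_eq_iff hv2, ha, hb] at hc'
  have h1 : (a ^ 2 - 112 * M ^ 2) ^ 2 = c * (4 * b ^ 2) := by exact_mod_cast hc'
  obtain ⟨t, ht⟩ := hM2
  have hcases : a % 3 = 0 ∨ a % 3 = 1 ∨ a % 3 = 2 := by omega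
  rcases hcases with h0 | h0 | h0
  · exact hv (case0 u v h ⟨a / 3, by rw [ha]; congr 1; omega⟩)
  · obtain ⟨a', rfl⟩ : ∃ a', a = 3 * a' + 1 := ⟨a / 3, by omega⟩
    rw [ht] at hab
    have h2 : b ^ 2 % 3 = 2 := by
      rw [hab]
      have e3 : (3 * a' + 1) ^ 3 + 21 * M * (3 * a' + 1) ^ 2 + 112 * (3 * t + 1) * (3 * a' + 1) =
        3 * (9 * a' ^ 3 + 9 * a' ^ 2 + 3 * a' + 7 * M * (3 * a' + 1) ^ 2 +
          112 * t * (3 * a' + 1) + 112 * a' + 37) + 2 := by ring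
      rw [e3]
      omega
    have h4 : b % 3 = 0 ∨ b % 3 = 1 ∨ b % 3 = 2 := by omega
    rcases h4 with h4 | h4 | h4 <;> simp [pow_two, Int.mul_emod, h4] at h2
  · obtain ⟨a', rfl⟩ : ∃ a', a = 3 * a' + 2 := ⟨a / 3, by omega⟩
    have h2 : (3 : ℤ) ∣ (3 * a' + 2) ^ 2 - 112 * M ^ 2 := by
      rw [ht]
      exact ⟨3 * a' ^ 2 + 4 * a' - 112 * t - 36, by ring⟩
    have h4 : ¬ (3 : ℤ) ∣ b := by
      intro h5
      have h6 : (3 : ℤ) ∣ b ^ 2 := Dvd.dvd.pow h5 (by norm_num)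
      rw [hab, ht] at h6
      have e3 : (3 * a' + 2) ^ 3 + 21 * M * (3 * a' + 2) ^ 2 + 112 * (3 * t + 1) * (3 * a' + 2) =
        3 * (9 * a' ^ 3 + 18 * a' ^ 2 + 12 * a' + 7 * M * (3 * a' + 2) ^ 2 +
          112 * t * (3 * a' + 2) + 112 * a' + 77) + 1 := by ring
      rw [e3] at h6
      omega
    have h5 : (3 : ℤ) ∣ c := by
      have h6 : (3 : ℤ) ∣ c * (4 * b ^ 2) := by
        rw [← h1]
        exact Dvd.dvd.pow h2 (by norm_num)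
      have hp : Prime (3 : ℤ) := Int.prime_three
      rcases hp.dvd_or_dvd h6 with h7 | h7
      · exact h7
      · rcases hp.dvd_or_dvd h7 with h8 | h8
        · omega
        · exact absurd (three_sq h8) h4
    have hw0 := case0 _ w hw (by
      obtain ⟨c', rfl⟩ := h5
      exact ⟨c', hc⟩)
    rw [hw0, hc] at hw
    have h6 : (c : ℚ) * ((c : ℚ) ^ 2 + 21 * M * c + 112 * M ^ 2) = 0 := by
      push_cast at hw
      linear_combination -hw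
    have hc0 : (c : ℚ) = 0 := by
      rcases mul_eq_zero.1 h6 with h7 | h7
      · exact h7
      · exfalso
        nlinarith [sq_nonneg ((c : ℚ) + 21 / 2 * M), sq_pos_of_ne_zero hMQ]
    rw [hc0] at hc
    rcases div_eq_zero_iff.1 hc with h7 | h7
    · have h8 := pow_eq_zero_iff (two_ne_zero) |>.1 h7
      have h9 : (u / (4 * M)) ^ 2 = ((7 : ℤ) : ℚ) := by
        rw [div_pow, div_eq_iff (pow_ne_zero 2 (mul_ne_zero (by norm_num) hMQ))]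
        push_cast
        linear_combination h8
      obtain ⟨m, hm⟩ := int_of_sq h9
      rw [hm] at h9
      have h10 : m ^ 2 = 7 := by exact_mod_cast h9
      have h11 : m ≤ 2 := by nlinarith
      have h12 : -2 ≤ m := by nlinarith
      interval_cases m <;> omega
    · exact hv2 h7

/-- **the points of a twist of rank zero** -/
theorem two_rat {M : ℤ} (h3 : ¬ (3 : ℤ) ∣ M)
    (hfin : {q : ℚ × ℚ | q.2 ^ 2 = q.1 ^ 3 + ((-2835 * M ^ 2 : ℤ) : ℚ) * q.1 +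
      ((-71442 * M ^ 3 : ℤ) : ℚ)}.Finite) : Two ℚ (M : ℚ) := by
  have hM0 : M ≠ 0 := by rintro rfl; exact h3 (dvd_zero 3)
  have hMQ : (M : ℚ) ≠ 0 := by exact_mod_cast hM0
  have H : ∀ u v : ℚ, v ^ 2 = u ^ 3 + ((21 * M : ℤ) : ℚ) * u ^ 2 + ((112 * M ^ 2 : ℤ) : ℚ) * u →
      ∃ n : ℤ, u = n := by
    intro u v h
    by_contra hn
    have hden : u.den ≠ 1 := by
      intro h1
      exact hn ⟨u.num, (Rat.den_eq_one_iff u).1 h1 |>.symm⟩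
    have hinf := Pool.Agent.Q269.NagellLutz.infinite_of_nonintegral (21 * M) (112 * M ^ 2) h hden
    apply hinf
    refine (hfin.image (fun q : ℚ × ℚ => (q.1 - 63 * M) / 9)).subset ?_
    rintro u ⟨v, hv⟩
    refine ⟨(9 * u + 63 * M, 27 * v), ?_, ?_⟩
    · simp only [Set.mem_ofPred_eq]
      push_cast at hv ⊢
      linear_combination 729 * hv
    · simp only
      ring
  intro x y hxy
  have h1 : (y / 27) ^ 2 = ((x - 63 * M) / 9) ^ 3 + ((21 * M : ℤ) : ℚ) * ((x - 63 * M) / 9) ^ 2 +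
      ((112 * M ^ 2 : ℤ) : ℚ) * ((x - 63 * M) / 9) := by
    push_cast
    linear_combination (1 / 729 : ℚ) * hxy
  have h2 := uv h3 H h1
  rw [h2] at h1
  have h4 : ((x - 63 * M) / 9) * (((x - 63 * M) / 9) ^ 2 + 21 * M * ((x - 63 * M) / 9) +
      112 * M ^ 2) = 0 := by
    push_cast at h1
    linear_combination -h1
  rcases mul_eq_zero.1 h4 with h5 | h5
  · linarith
  · exfalso
    nlinarith [sq_nonneg (((x - 63 * M) / 9 : ℚ) + 21 / 2 * M), sq_pos_of_ne_zero hMQ]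

end Q283.IN
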