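import Pool.Agent.Q283.IN.A

/-!
# Fields over which a twist of `X_0(49)` has two points: quadratic extensions
-/

set_option autoImplicit false

open WeierstrassCurve

namespace Q283.IN

open Pool.Agent.W307.RS (ShK)
open Pool.Agent.W612.RS

section step

variable {K L : Type} [Field K] [Field L] [CharZero K] [Algebra K L] {x : L} {d M : K}

/-- the cubic -/
theorem cubic_root {L : Type} [Field L] {M X : L}
    (h : (0 : L) = X ^ 3 + -2835 * M ^ 2 * X + -71442 * M ^ 3) (hM : M ≠ 0) (h9 : (9 : L) ≠ 0)
    (h7 : ∀ z : L, z ^ 2 ≠ -7) : X = 63 * M := by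
  have h1 : (X - 63 * M) * (X ^ 2 + 63 * M * X + 1134 * M ^ 2) = 0 := by
    linear_combination -h
  rcases mul_eq_zero.1 h1 with h2 | h2
  · exact sub_eq_zero.1 h2
  · exfalso
    apply h7 ((2 * X + 63 * M) / (9 * M))
    rw [div_pow, div_eq_iff (pow_ne_zero 2 (mul_ne_zero h9 hM))]
    linear_combination 4 * h2

/-- halving the point of order two -/
theorem half_point {L : Type} [Field L] {M X Y : L}
    (h : Y ^ 2 = X ^ 3 + -2835 * M ^ 2 * X + -71442 * M ^ 3) (hM : M ≠ 0) (h36 : (36 : L) ≠ 0)
    (h2 : (3 * X ^ 2 + -2835 * M ^ 2) ^ 2 = 4 * Y ^ 2 * (2 * X + 63 * M))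
    (h7 : ∀ z : L, z ^ 2 ≠ 7) : False := by
  have h1 : ((X - 63 * M) ^ 2 - 9072 * M ^ 2) ^ 2 = 0 := by
    rw [h] at h2
    linear_combination h2
  have h3 := pow_eq_zero_iff (two_ne_zero) |>.1 h1
  apply h7 ((X - 63 * M) / (36 * M))
  rw [div_pow, div_eq_iff (pow_ne_zero 2 (mul_ne_zero h36 hM))]
  linear_combination h3

/-- **the step from a field to a quadratic extension** -/
theorem two_step (hx : x ^ 2 = algebraMap K L d) (hd0 : d ≠ 0)
    (htop : IntermediateField.adjoin K {x} = ⊤) (hM : M ≠ 0) (h1 : Two K M) (h2 : Two K (d * M))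
    (h7 : ∀ z : L, z ^ 2 ≠ 7) (h7' : ∀ z : L, z ^ 2 ≠ -7) : Two L (algebraMap K L M) := by
  classical
  have hcL : CharZero L := charZero_of_injective_algebraMap (algebraMap K L).injective
  have hML : algebraMap K L M ≠ 0 := by rwa [Ne, map_eq_zero]
  by_cases hxK : x ∈ Set.range (algebraMap K L)
  · obtain ⟨x0, hx0⟩ := hxK
    have hall : ∀ z : L, ∃ a : K, z = algebraMap K L a := by
      intro z
      obtain ⟨a, b, h⟩ := decomp hx htop z
      exact ⟨a + b * x0, by rw [h, ← hx0]; simp⟩
    intro X Y h
    obtain ⟨a, rfl⟩ := hall X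
    obtain ⟨b, rfl⟩ := hall Y
    have h3 : b ^ 2 = a ^ 3 + -2835 * M ^ 2 * a + -71442 * M ^ 3 := by
      apply (algebraMap K L).injective
      simp only [map_add, map_mul, map_pow, map_neg, map_ofNat]
      exact h
    rw [h1 a b h3, map_mul, map_ofNat]
  · obtain ⟨σ, hσ⟩ := exists_conj hx htop hxK
    have hx0 : x ≠ 0 := fun h => hxK ⟨0, by rw [map_zero, h]⟩
    have hσK : ∀ c : K, σ (algebraMap K L c) = algebraMap K L c := by
      intro c
      have := hσ c 0
      simpa using this
    have hσσ : ∀ z, σ (σ z) = z := by
      intro z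
      obtain ⟨a, b, rfl⟩ := decomp hx htop z
      rw [hσ]
      have e : algebraMap K L a - algebraMap K L b * x =
        algebraMap K L a + algebraMap K L (-b) * x := by rw [map_neg]; ring
      rw [e, hσ, map_neg]
      ring
    have h2L : ∀ c : K, algebraMap K L c + algebraMap K L c = 0 → c = 0 := by
      intro c hc
      rw [← map_add, map_eq_zero] at hc
      have : (2 : K) * c = 0 := by linear_combination hc
      exact (mul_eq_zero.mp this).resolve_left two_ne_zero
    have hfix : ∀ z, σ z = z → ∃ a : K, z = algebraMap K L a := by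
      intro z hz
      obtain ⟨a, b, rfl⟩ := decomp hx htop z
      rw [hσ] at hz
      have h1 : (algebraMap K L b + algebraMap K L b) * x = 0 := by linear_combination -hz
      have h2 := h2L b ((mul_eq_zero.mp h1).resolve_right hx0)
      exact ⟨a, by rw [h2]; simp⟩
    have hanti : ∀ z, σ z = -z → ∃ b : K, z = algebraMap K L b * x := by
      intro z hz
      obtain ⟨a, b, rfl⟩ := decomp hx htop z
      rw [hσ] at hz
      have h1 : algebraMap K L a + algebraMap K L a = 0 := by linear_combination hz
      have h2 := h2L a h1
      exact ⟨b, by rw [h2]; simp⟩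
    set A : L := -2835 * algebraMap K L M ^ 2 with hA
    set B : L := -71442 * algebraMap K L M ^ 3 with hB
    have hsa : A = σ A * (1 : L) ^ 4 := by
      rw [hA]; simp only [map_mul, map_neg, map_pow, map_ofNat, hσK]; ring
    have hsb : B = σ B * (1 : L) ^ 6 := by
      rw [hB]; simp only [map_mul, map_neg, map_pow, map_ofNat, hσK]; ring
    set s := tH σ one_ne_zero hsa hsb with hs
    have hns : (ShK A B).toAffine.Nonsingular (63 * algebraMap K L M) 0 := by
      rw [Affine.nonsingular_iff, Affine.equation_iff]
      simp only [ShK, zero_mul, mul_zero, add_zero]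
      refine ⟨?_, Or.inl ?_⟩
      · rw [hA, hB]; ring
      · rw [hA]
        intro h
        have h3 : (9072 : L) * algebraMap K L M ^ 2 = 0 := by linear_combination -h
        rcases mul_eq_zero.1 h3 with h4 | h4
        · exact absurd h4 (by norm_num)
        · exact pow_ne_zero 2 hML h4
    set T : (ShK A B).toAffine.Point := .some _ _ hns with hT
    have eqn : ∀ {X Y : L} (h : (ShK A B).toAffine.Nonsingular X Y),
        Y ^ 2 = X ^ 3 + A * X + B := by
      intro X Y h
      have h3 := (Affine.equation_iff _ _).1 h.1
      simp only [ShK, zero_mul, add_zero] at h3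
      exact h3
    have hTT : T + T = 0 := by
      rw [hT]
      exact Affine.Point.add_self_of_Y_eq (by simp [Affine.negY, ShK])
    have c1 : ∀ P, s P = P → P = 0 ∨ P = T := by
      intro P hP
      match P with
      | 0 => exact Or.inl rfl
      | .some X Y h =>
        right
        rw [hs, tH_some, Affine.Point.some.injEq] at hP
        simp only [one_pow, mul_one] at hP
        obtain ⟨a, rfl⟩ := hfix X hP.1
        obtain ⟨b, rfl⟩ := hfix Y hP.2
        have h3 : b ^ 2 = a ^ 3 + -2835 * M ^ 2 * a + -71442 * M ^ 3 := by
          apply (algebraMap K L).injective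
          simp only [map_add, map_mul, map_pow, map_neg, map_ofNat]
          exact eqn h
        have h4 := h1 a b h3
        rw [h4] at h3
        have h5 : b = 0 := by
          have h6 : b ^ 2 = 0 := by rw [h3]; ring
          exact pow_eq_zero_iff (two_ne_zero) |>.1 h6
        rw [hT, Affine.Point.some.injEq, h4, h5, map_mul, map_ofNat, map_zero]
        exact ⟨rfl, rfl⟩
    have c2 : ∀ P, s P = -P → P = 0 ∨ P = T := by
      intro P hP
      match P with
      | 0 => exact Or.inl rfl
      | .some X Y h =>
        right
        rw [hs, tH_some, Affine.Point.neg_some, Affine.Point.some.injEq] at hP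
        simp only [one_pow, mul_one, Affine.negY, ShK, zero_mul, sub_zero] at hP
        obtain ⟨a, rfl⟩ := hfix X hP.1
        obtain ⟨b, rfl⟩ := hanti Y hP.2
        have h3 : (d ^ 2 * b) ^ 2 = (d * a) ^ 3 + -2835 * (d * M) ^ 2 * (d * a) +
            -71442 * (d * M) ^ 3 := by
          apply (algebraMap K L).injective
          simp only [map_add, map_mul, map_pow, map_neg, map_ofNat]
          have h4 := eqn h
          rw [mul_pow, hx] at h4
          linear_combination (algebraMap K L d ^ 3) * h4
        have h4 := h2 (d * a) (d ^ 2 * b) h3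
        have h5 : a = 63 * M := by
          apply mul_left_cancel₀ hd0
          rw [h4]; ring
        have h6 : b = 0 := by
          rw [h4] at h3
          have h7 : (d ^ 2 * b) ^ 2 = 0 := by rw [h3]; ring
          have h8 := pow_eq_zero_iff (two_ne_zero) |>.1 h7
          exact (mul_eq_zero.1 h8).resolve_left (pow_ne_zero 2 hd0)
        rw [hT, Affine.Point.some.injEq, h5, h6, map_mul, map_ofNat, map_zero, zero_mul]
        exact ⟨rfl, rfl⟩
    intro X Y hXY
    have hnsP : (ShK A B).toAffine.Nonsingular X Y := by
      have hdisc : (ShK A B).Δ ≠ 0 := by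
        unfold WeierstrassCurve.Δ WeierstrassCurve.b₂ WeierstrassCurve.b₄ WeierstrassCurve.b₆
          WeierstrassCurve.b₈
        simp only [ShK]
        rw [hA, hB]
        intro h
        have h3 : (-746636341248 : L) * algebraMap K L M ^ 6 = 0 := by
          linear_combination h
        rcases mul_eq_zero.1 h3 with h4 | h4
        · exact absurd h4 (by norm_num)
        · exact pow_ne_zero 6 hML h4
      exact Affine.equation_iff_nonsingular_of_Δ_ne_zero hdisc |>.1 (by
        rw [Affine.equation_iff]
        simp only [ShK, zero_mul, add_zero]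
        exact hXY)
    set P : (ShK A B).toAffine.Point := .some X Y hnsP with hP
    have hss : ∀ P, s (s P) = P := by
      intro P
      match P with
      | 0 => rw [map_zero, map_zero]
      | .some X Y h =>
        rw [hs, tH_some, tH_some, Affine.Point.some.injEq]
        simp only [one_pow, mul_one]
        exact ⟨hσσ X, hσσ Y⟩
    have h2P : P + P = 0 ∨ P + P = T := by
      have e1 := c1 (P + s P) (by rw [map_add, hss, add_comm])
      have e2 := c2 (P - s P) (by rw [map_sub, hss, neg_sub])
      have e3 : P + P = (P + s P) + (P - s P) := by abel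
      rw [e3]
      rcases e1 with e1 | e1 <;> rcases e2 with e2 | e2 <;> rw [e1, e2]
      · left; rw [add_zero]
      · right; rw [zero_add]
      · right; rw [add_zero]
      · left; exact hTT
    by_cases hY : Y = 0
    · refine cubic_root (L := L) (M := algebraMap K L M) (X := X) ?_ hML (by norm_num) h7'
      rw [← hXY, hY]
      ring
    · exfalso
      have hne : ¬ (X = X ∧ Y = (ShK A B).toAffine.negY X Y) := by
        rintro ⟨-, h⟩
        simp only [Affine.negY, ShK, zero_mul, sub_zero] at h
        have h3 : (2 : L) * Y = 0 := by linear_combination h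
        exact hY ((mul_eq_zero.1 h3).resolve_left two_ne_zero)
      have hadd := Affine.Point.add_some (W := (ShK A B).toAffine) hne (h₁ := hnsP) (h₂ := hnsP)
      rcases h2P with h3 | h3
      · rw [hP, hadd] at h3
        exact Affine.Point.some_ne_zero _ h3
      · rw [hP, hadd, hT, Affine.Point.some.injEq] at h3
        have h4 := h3.1
        have hYne : Y ≠ (ShK A B).toAffine.negY X Y := fun h => hne ⟨rfl, h⟩
        rw [Affine.slope_of_Y_ne rfl hYne] at h4
        simp only [Affine.addX, Affine.negY, ShK, zero_mul, mul_zero, add_zero, sub_zero] at h4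
        refine half_point (L := L) (M := algebraMap K L M) (X := X) (Y := Y) hXY hML (by norm_num)
          ?_ h7
        have h2Y : (2 * Y) ≠ 0 := mul_ne_zero two_ne_zero hY
        have e5 : Y - -Y = 2 * Y := by ring
        rw [e5, div_pow] at h4
        have h6 : (3 * X ^ 2 + A) ^ 2 = (2 * X + 63 * algebraMap K L M) * (2 * Y) ^ 2 := by
          rw [← div_eq_iff (pow_ne_zero 2 h2Y)]
          linear_combination h4
        rw [hA] at h6
        linear_combination h6

end step

end Q283.IN
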