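import Pool.Agent.Q283.IN.B

/-!
# Fields over which a twist of `X_0(49)` has two points: multiquadratic fields
-/

set_option autoImplicit false

open WeierstrassCurve

namespace Q283.IN

open Pool.Agent.Y697.MQ (kummer_card)
open Pool.Agent.Y19.QT (Indep)

theorem Two.hom {K L : Type} [Field K] [Field L] [Algebra K L]
    (hall : ∀ z : L, ∃ a : K, z = algebraMap K L a) {M : K} (h : Two K M) :
    Two L (algebraMap K L M) := by
  intro X Y hXY
  obtain ⟨a, rfl⟩ := hall X
  obtain ⟨b, rfl⟩ := hall Y
  have h3 : b ^ 2 = a ^ 3 + -2835 * M ^ 2 * a + -71442 * M ^ 3 := by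
    apply (algebraMap K L).injective
    simp only [map_add, map_mul, map_pow, map_neg, map_ofNat]
    exact hXY
  rw [h a b h3, map_mul, map_ofNat]

/-- a field inside a field without square roots of `± 7` -/
theorem two_gen {J : Type} (S : Finset J) :
    ∀ (K L : Type) [Field K] [Field L] [CharZero K] [Algebra K L] (x : J → L) (d : J → K),
    (∀ i ∈ S, x i ^ 2 = algebraMap K L (d i)) → (∀ i ∈ S, d i ≠ 0) →
    IntermediateField.adjoin K (x '' (S : Set J)) = ⊤ → (∀ z : L, z ^ 2 ≠ 7) →
    (∀ z : L, z ^ 2 ≠ -7) → ∀ M : K, M ≠ 0 → (∀ T ∈ S.powerset, Two K ((∏ i ∈ T, d i) * M)) →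
    Two L (algebraMap K L M) := by
  classical
  induction S using Finset.induction_on with
  | empty =>
    intro K L _ _ _ _ x d _ _ htop _ _ M _ h
    rw [Finset.coe_empty, Set.image_empty, IntermediateField.adjoin_empty] at htop
    have h1 := h ∅ (by simp)
    rw [Finset.prod_empty, one_mul] at h1
    refine h1.hom fun z => ?_
    have hz : z ∈ (⊤ : IntermediateField K L) := IntermediateField.mem_top
    rw [← htop, IntermediateField.mem_bot] at hz
    obtain ⟨a, ha⟩ := hz
    exact ⟨a, ha.symm⟩
  | insert a S' ha ih =>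
    intro K L _ _ _ _ x d hx hd htop h7 h7' M hM h
    set K' := IntermediateField.adjoin K (x '' (S' : Set J)) with hK'
    have : CharZero K' := charZero_of_injective_algebraMap (algebraMap K K').injective
    -- the top
    have ht1 : IntermediateField.adjoin K' {x a} = ⊤ := by
      have h1 := IntermediateField.adjoin_adjoin_left K (x '' (S' : Set J)) {x a}
      have h2 : x '' (S' : Set J) ∪ {x a} = x '' ((insert a S' : Finset J) : Set J) := by
        rw [Finset.coe_insert, Set.image_insert_eq, Set.union_comm, Set.singleton_union]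
      rw [h2, htop] at h1
      apply IntermediateField.restrictScalars_injective K
      rw [IntermediateField.restrictScalars_top]
      exact h1
    have hsub : ∀ i ∈ S', x i ∈ K' := fun i hi =>
      IntermediateField.subset_adjoin K _ (Set.mem_image_of_mem x hi)
    let x' : J → K' := fun i => if hi : i ∈ S' then ⟨x i, hsub i hi⟩ else 0
    have hx' : ∀ i ∈ S', ((x' i : K') : L) = x i := by
      intro i hi
      simp only [x', dif_pos hi]
    have ht2 : IntermediateField.adjoin K (x' '' (S' : Set J)) = ⊤ := by
      have him : (Subtype.val '' (x' '' (S' : Set J)) : Set L) = x '' (S' : Set J) := by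
        rw [← Set.image_comp]
        exact Set.image_congr fun i hi => hx' i hi
      apply IntermediateField.lift_injective K'
      rw [IntermediateField.lift_top, IntermediateField.lift_adjoin, him]
    have hsq : ∀ i ∈ S', x' i ^ 2 = algebraMap K K' (d i) := by
      intro i hi
      apply Subtype.ext
      rw [IntermediateField.coe_pow, hx' i hi, hx i (Finset.mem_insert_of_mem hi)]
      rfl
    have hd' : ∀ i ∈ S', d i ≠ 0 := fun i hi => hd i (Finset.mem_insert_of_mem hi)
    have hda : d a ≠ 0 := hd a (Finset.mem_insert_self a S')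
    have k7 : ∀ z : K', z ^ 2 ≠ 7 := by
      intro z hz
      apply h7 (algebraMap K' L z)
      rw [← map_pow, hz, map_ofNat]
    have k7' : ∀ z : K', z ^ 2 ≠ -7 := by
      intro z hz
      apply h7' (algebraMap K' L z)
      rw [← map_pow, hz, map_neg, map_ofNat]
    have hM1 : ∀ T ∈ S'.powerset, Two K ((∏ i ∈ T, d i) * M) := fun T hT =>
      h T (Finset.mem_powerset.2 ((Finset.mem_powerset.1 hT).trans (Finset.subset_insert a S')))
    have hM2 : ∀ T ∈ S'.powerset, Two K ((∏ i ∈ T, d i) * (d a * M)) := by
      intro T hT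
      have haT : a ∉ T := fun hh => ha (Finset.mem_powerset.mp hT hh)
      have h3 := h (insert a T) (Finset.mem_powerset.2
        (Finset.insert_subset_insert a (Finset.mem_powerset.1 hT)))
      rw [Finset.prod_insert haT] at h3
      have e : (∏ i ∈ T, d i) * (d a * M) = (d a * ∏ i ∈ T, d i) * M := by ring
      rw [e]
      exact h3
    have ih1 := ih K K' x' d hsq hd' ht2 k7 k7' M hM hM1
    have ih2 := ih K K' x' d hsq hd' ht2 k7 k7' (d a * M) (mul_ne_zero hda hM) hM2
    have hxa : x a ^ 2 = algebraMap K' L (algebraMap K K' (d a)) := by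
      rw [hx a (Finset.mem_insert_self a S')]; rfl
    have h0 : algebraMap K K' M ≠ 0 := by rwa [Ne, map_eq_zero]
    have h0' : algebraMap K K' (d a) ≠ 0 := by rwa [Ne, map_eq_zero]
    rw [map_mul] at ih2
    exact two_step (K := K') (L := L) (d := algebraMap K K' (d a)) (M := algebraMap K K' M)
      hxa h0' ht1 h0 ih1 ih2 h7 h7'

/-- no other square roots in a multiquadratic field -/
theorem no_sqrt {K : Type} [Field K] [NumberField K] {n : ℕ} {d : Fin n → ℤ} {x : Fin n → K}
    (hd : Indep d) (hx : ∀ i, x i ^ 2 = (d i : K))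
    (hK : IntermediateField.adjoin ℚ (Set.range x) = ⊤) {e : ℤ} (he0 : e ≠ 0)
    (he : ∀ T : Finset (Fin n), ¬ IsSquare (e * ∏ i ∈ T, d i)) (z : K) : z ^ 2 ≠ (e : K) := by
  classical
  intro hz
  have := Pool.Agent.Y73.QMQ1.gal_of hx hK
  have h1 := Pool.Agent.Y73.QMQ1.card_gal hd hx hK
  let r : Option (Fin n) → K := fun o => o.elim z x
  let c : Option (Fin n) → ℤ := fun o => o.elim e d
  have h2 := kummer_card (k := ℚ) (K := K) (I := Option (Fin n)) r (fun i => (c i : ℚ))
    (fun i => by
      cases i with
      | none => exact Int.cast_ne_zero.2 he0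
      | some i => exact Int.cast_ne_zero.2 (Pool.Agent.Y73.QMQ1.d_ne_zero hd i))
    (fun i => by
      cases i with
      | none => rw [map_intCast]; exact hz
      | some i => rw [map_intCast]; exact hx i) two_ne_zero
    (by
      intro T hT h2
      have h3 : (∏ i ∈ T, (c i : ℚ)) = ((∏ i ∈ T, c i : ℤ) : ℚ) := by push_cast; rfl
      rw [h3] at h2
      have h4 := Rat.isSquare_intCast_iff.1 h2
      set T' : Finset (Fin n) := Finset.univ.filter fun i => some i ∈ T with hT'
      have hmap : ∏ i ∈ T', d i = ∏ o ∈ T.erase none, c o := by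
        have himg : T.erase none = T'.map Function.Embedding.some := by
          ext o
          cases o with
          | none => simp
          | some i => simp [hT']
        rw [himg, Finset.prod_map]
        rfl
      by_cases hn : none ∈ T
      · apply he T'
        rw [hmap]
        have h5 := Finset.mul_prod_erase T c hn
        have h6 : c none = e := rfl
        rw [h6] at h5
        rw [h5]
        exact h4
      · apply hd T'
        · obtain ⟨o, ho⟩ := hT
          cases o with
          | none => exact absurd ho hn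
          | some i => exact ⟨i, by simp [hT', ho]⟩
        · rw [hmap, Finset.erase_eq_of_notMem hn]
          exact h4)
    (fun σ hσ => Pool.Agent.Y73.QMQ1.gal_inj hK σ fun i => hσ (some i))
  rw [h1, Fintype.card_option, Fintype.card_fin, pow_succ] at h2
  have h3 : 0 < 2 ^ n := pow_pos (by norm_num) n
  omega

/-- **the points over a multiquadratic field** -/
theorem two_field {K : Type} [Field K] [NumberField K] {n : ℕ} {d : Fin n → ℤ} {x : Fin n → K}
    (hd : Indep d) (hx : ∀ i, x i ^ 2 = (d i : K))
    (hK : IntermediateField.adjoin ℚ (Set.range x) = ⊤)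
    (h7 : ∀ T : Finset (Fin n), ¬ IsSquare (7 * ∏ i ∈ T, d i))
    (h7' : ∀ T : Finset (Fin n), ¬ IsSquare (-7 * ∏ i ∈ T, d i)) {M : ℤ} (hM : M ≠ 0)
    (h : ∀ T : Finset (Fin n), Two ℚ ((M * ∏ i ∈ T, d i : ℤ) : ℚ)) : Two K (M : K) := by
  have h1 := two_gen (Finset.univ : Finset (Fin n)) ℚ K x (fun i => (d i : ℚ))
    (fun i _ => by rw [hx i, map_intCast])
    (fun i _ => Int.cast_ne_zero.2 (Pool.Agent.Y73.QMQ1.d_ne_zero hd i))
    (by rw [Finset.coe_univ, Set.image_univ]; exact hK)
    (fun z hz => no_sqrt hd hx hK (e := 7) (by norm_num) h7 z (by rw [hz]; norm_num))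
    (fun z hz => no_sqrt hd hx hK (e := -7) (by norm_num) h7' z (by rw [hz]; norm_num))
    (M : ℚ) (Int.cast_ne_zero.2 hM) (fun T _ => by
      have h2 := h T
      have e : ((M * ∏ i ∈ T, d i : ℤ) : ℚ) = (∏ i ∈ T, (d i : ℚ)) * (M : ℚ) := by
        push_cast; ring
      rw [e] at h2
      exact h2)
  rw [map_intCast] at h1
  exact h1

end Q283.IN
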