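import Pool.Agent.Q283.IN.D

/-!
# The family, and the infinite field
-/

set_option autoImplicit false
set_option linter.unusedSectionVars false

open scoped Classical

namespace Q283.IN

open Finset Filter Topology
open Q283.GM hiding DD rk_eq
open Q283.GW
open Pool.Agent.Y687 (DD qs DD_natAbs)
open Pool.Agent.Y687.MQ (ZB Ind)
open Pool.Agent.Y687.JQ (DD_mul DD_ne prod_symmDiff isSquare_of_mul)
open Q283.XF (nf)
open Q283.J2 (RZ49 ca cb disc_b)

/-- the data: a twist of rank zero and a set of primes which do not change its matrix -/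
structure Dt (S : Finset ℕ) (M k₀ : ℤ) (R : ℕ → Prop) : Prop where
  cf : CF S
  rk0 : rk ρ49.Φ nf S = 0
  k0 : k₀ ≠ 0
  eq : M = DD S * k₀ ^ 2
  three : ¬ (3 : ℤ) ∣ M
  nt : ∀ r, R r → Nt S r
  ns : ∀ r, R r → r ∉ S

variable {S : Finset ℕ} {M k₀ : ℤ} {R : ℕ → Prop}

theorem Dt.ne (h : Dt S M k₀ R) : M ≠ 0 := by
  rw [h.eq]
  exact mul_ne_zero h.cf.ne (pow_ne_zero 2 h.k0)

theorem Dt.pr (h : Dt S M k₀ R) : ∀ r, R r → r.Prime ∧ r % 4 = 1 := fun r hr =>
  ⟨(h.nt r hr).pr, (h.nt r hr).m4⟩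

/-- the twists by the products -/
theorem Dt.fam (h : Dt S M k₀ R) {n : ℕ} {d : Fin n → ℕ}
    (hd : ∀ i, Squarefree (d i) ∧ ∀ p ∈ (d i).primeFactors, R p) (T : Finset (Fin n)) :
    ∃ (S' : Finset ℕ) (k : ℤ), CF S' ∧ rk ρ49.Φ nf S' = 0 ∧ k ≠ 0 ∧
      M * ∏ i ∈ T, (d i : ℤ) = DD S' * k ^ 2 := by
  obtain ⟨J, k, hJ, hk, he⟩ := exists_R h.pr hd T
  have hdis : Disjoint S J := by
    rw [Finset.disjoint_right]
    exact fun r hr => h.ns r (hJ r hr)
  refine ⟨S ∪ J, k₀ * k, ?_, ?_, mul_ne_zero h.k0 hk, ?_⟩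
  · intro p hp
    rcases Finset.mem_union.1 hp with h1 | h1
    · exact h.cf p h1
    · exact h.pr p (hJ p h1)
  · rw [rk_union h.cf (fun r hr => h.nt r (hJ r hr)) hdis]
    exact h.rk0
  · rw [he, h.eq, ← DD_union hdis]
    ring

/-- the products are not divisible by three -/
theorem Dt.three_mul (h : Dt S M k₀ R) {n : ℕ} {d : Fin n → ℕ}
    (hd : ∀ i, Squarefree (d i) ∧ ∀ p ∈ (d i).primeFactors, R p) (T : Finset (Fin n)) :
    ¬ (3 : ℤ) ∣ M * ∏ i ∈ T, (d i : ℤ) := by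
  intro h3
  have hp : Prime (3 : ℤ) := Int.prime_three
  rcases hp.dvd_or_dvd h3 with h4 | h4
  · exact h.three h4
  · obtain ⟨i, -, hi⟩ := (hp.dvd_finset_prod_iff _).1 h4
    have h5 : 3 ∣ d i := by exact_mod_cast hi
    have h6 := (h.pr 3 ((hd i).2 3 (Nat.mem_primeFactors.2
      ⟨by norm_num, h5, (hd i).1.ne_zero⟩))).2
    norm_num at h6

theorem Dt.not_sq (h : Dt S M k₀ R) {n : ℕ} {d : Fin n → ℕ}
    (hd : ∀ i, Squarefree (d i) ∧ ∀ p ∈ (d i).primeFactors, R p) (T : Finset (Fin n)) :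
    ¬ IsSquare (7 * ∏ i ∈ T, (d i : ℤ)) := by
  intro h7
  obtain ⟨J, k, hJ, hk, he⟩ := exists_R h.pr hd T
  have hJp : ∀ q ∈ J, q.Prime := fun q hq => (h.pr q (hJ q hq)).1
  have hCF : CF J := fun p hp => h.pr p (hJ p hp)
  rw [he, DD_CF hCF] at h7
  obtain ⟨z, hz⟩ := h7
  have h8 : IsSquare ((7 : ℤ) * ((∏ p ∈ J, p : ℕ) : ℤ)) :=
    isSquare_of_mul hk (z := z) (by linear_combination hz)
  refine not_sq_prime (p := 7) (by norm_num) hJp (fun h9 => ?_) (by exact_mod_cast h8)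
  have := (h.pr 7 (hJ 7 h9)).2
  norm_num at this

theorem neg_not_sq {n : ℕ} {d : Fin n → ℕ} (hd : ∀ i, Squarefree (d i)) (T : Finset (Fin n)) :
    ¬ IsSquare (-7 * ∏ i ∈ T, (d i : ℤ)) := by
  intro h
  have h1 := h.nonneg
  have h2 : 0 < ∏ i ∈ T, (d i : ℤ) := Finset.prod_pos fun i _ => by
    exact_mod_cast Nat.pos_of_ne_zero (hd i).ne_zero
  linarith

/-- the twist over the rational numbers -/
theorem Dt.rat (h : Dt S M k₀ R) {n : ℕ} {d : Fin n → ℕ}
    (hd : ∀ i, Squarefree (d i) ∧ ∀ p ∈ (d i).primeFactors, R p) (T : Finset (Fin n)) :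
    Two ℚ ((M * ∏ i ∈ T, (d i : ℤ) : ℤ) : ℚ) := by
  obtain ⟨S', k, hS, hG, hk, he⟩ := h.fam hd T
  refine two_rat (h.three_mul hd T) ?_
  rw [he]
  exact (Pool.Agent.Y687.MQ.ZB_scale (disc_b true) hS.ne hk (zb_CF hS hG)).2

/-- **the points over the multiquadratic fields** -/
theorem Dt.two (h : Dt S M k₀ R) {n : ℕ} {d : Fin n → ℕ}
    (hd : ∀ i, Squarefree (d i) ∧ ∀ p ∈ (d i).primeFactors, R p)
    (hI : Ind (fun i => (d i : ℤ))) {K : Type} [Field K] [NumberField K] {x : Fin n → K}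
    (hx : ∀ i, x i ^ 2 = (d i : K)) (hK : IntermediateField.adjoin ℚ (Set.range x) = ⊤) :
    Two K (M : K) :=
  two_field (d := fun i => (d i : ℤ)) hI (fun i => by rw [hx i]; push_cast; rfl) hK
    (h.not_sq hd) (neg_not_sq fun i => (hd i).1) h.ne (h.rat hd)

theorem adjoin_top {F E : Type} [Field F] [Field E] [Algebra F E] {n : ℕ} {x : Fin n → E}
    (x' : Fin n → IntermediateField.adjoin F (Set.range x)) (h : ∀ i, (x' i : E) = x i) :
    IntermediateField.adjoin F (Set.range x') = ⊤ := by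
  have him : (Subtype.val '' (Set.range x') : Set E) = Set.range x := by
    rw [← Set.range_comp]
    exact congrArg Set.range (funext fun i => h i)
  apply IntermediateField.lift_injective (IntermediateField.adjoin F (Set.range x))
  rw [IntermediateField.lift_top, IntermediateField.lift_adjoin, him]

/-- distinct primes are independent -/
theorem ind_primes {n : ℕ} {e : Fin n → ℕ} (he : ∀ i, (e i).Prime) (hinj : Function.Injective e) :
    Ind (fun i => (e i : ℤ)) := by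
  intro T hT h
  have e1 : ∏ i ∈ T, (e i : ℤ) = ((∏ q ∈ T.image e, q : ℕ) : ℤ) := by
    rw [Finset.prod_image fun a _ b _ h => hinj h]
    push_cast
    rfl
  rw [e1] at h
  refine not_sq_set (fun q hq => ?_) (hT.image e) h
  obtain ⟨i, -, rfl⟩ := Finset.mem_image.1 hq
  exact he i

/-- **the points over the infinite field** -/
theorem Dt.inf (h : Dt S M k₀ R) {X Y : ℝ}
    (hX : X ∈ IntermediateField.adjoin ℚ {z : ℝ | ∃ r : ℕ, R r ∧ z ^ 2 = r})
    (hY : Y ∈ IntermediateField.adjoin ℚ {z : ℝ | ∃ r : ℕ, R r ∧ z ^ 2 = r})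
    (hXY : Y ^ 2 = X ^ 3 + -2835 * M ^ 2 * X + -71442 * M ^ 3) : X = 63 * M := by
  obtain ⟨T1, hT1, hX1⟩ := IntermediateField.exists_finset_of_mem_adjoin hX
  obtain ⟨T2, hT2, hY2⟩ := IntermediateField.exists_finset_of_mem_adjoin hY
  have hch : ∀ z : ℝ, ∃ r : ℕ, z ∈ T1 ∪ T2 → R r ∧ z ^ 2 = r := by
    intro z
    by_cases hz : z ∈ T1 ∪ T2
    · rcases Finset.mem_union.1 hz with h1 | h1
      · obtain ⟨r, hr⟩ := hT1 h1
        exact ⟨r, fun _ => hr⟩
      · obtain ⟨r, hr⟩ := hT2 h1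
        exact ⟨r, fun _ => hr⟩
    · exact ⟨0, fun h1 => absurd h1 hz⟩
  choose g hg using hch
  set J : Finset ℕ := (T1 ∪ T2).image g with hJ
  have hJR : ∀ r ∈ J, R r := by
    intro r hr
    obtain ⟨z, hz, rfl⟩ := Finset.mem_image.1 hr
    exact (hg z hz).1
  set e : Fin J.card → ℕ := fun i => (J.equivFin.symm i : ℕ) with he
  have heJ : ∀ i, e i ∈ J := fun i => (J.equivFin.symm i).2
  have hinj : Function.Injective e := fun a b hab => J.equivFin.symm.injective (Subtype.ext hab)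
  set x : Fin J.card → ℝ := fun i => √(e i : ℝ) with hx
  have hall : ∀ z ∈ T1 ∪ T2, z ∈ IntermediateField.adjoin ℚ (Set.range x) := by
    intro z hz
    have h1 := (hg z hz).2
    have h2 : g z ∈ J := Finset.mem_image_of_mem g hz
    obtain ⟨i, hi⟩ : ∃ i, e i = g z := ⟨J.equivFin ⟨g z, h2⟩, by rw [he]; simp⟩
    have h3 : z ^ 2 = x i ^ 2 := by
      rw [h1, hx]
      simp only
      rw [hi, Real.sq_sqrt (Nat.cast_nonneg _)]
    have h4 : x i ∈ IntermediateField.adjoin ℚ (Set.range x) :=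
      IntermediateField.subset_adjoin ℚ _ ⟨i, rfl⟩
    rcases sq_eq_sq_iff_eq_or_eq_neg.1 h3 with h5 | h5
    · rw [h5]; exact h4
    · rw [h5]; exact neg_mem h4
  have hle1 : IntermediateField.adjoin ℚ (T1 : Set ℝ) ≤ IntermediateField.adjoin ℚ (Set.range x) :=
    IntermediateField.adjoin_le_iff.2 fun z hz => hall z (Finset.mem_union_left _ hz)
  have hle2 : IntermediateField.adjoin ℚ (T2 : Set ℝ) ≤ IntermediateField.adjoin ℚ (Set.range x) :=
    IntermediateField.adjoin_le_iff.2 fun z hz => hall z (Finset.mem_union_right _ hz)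
  have hXK := hle1 hX1
  have hYK := hle2 hY2
  have hfd : FiniteDimensional ℚ (IntermediateField.adjoin ℚ (Set.range x)) := by
    refine IntermediateField.finiteDimensional_adjoin fun z hz => ?_
    obtain ⟨i, rfl⟩ := hz
    refine ⟨Polynomial.X ^ 2 - Polynomial.C (e i : ℚ),
      Polynomial.monic_X_pow_sub_C _ (by norm_num), ?_⟩
    have : (√(e i : ℝ)) ^ 2 = (e i : ℝ) := Real.sq_sqrt (Nat.cast_nonneg _)
    simp [hx, this]
  have hNF : NumberField (IntermediateField.adjoin ℚ (Set.range x)) := ⟨⟩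
  let x' : Fin J.card → IntermediateField.adjoin ℚ (Set.range x) := fun i =>
    ⟨x i, IntermediateField.subset_adjoin ℚ _ ⟨i, rfl⟩⟩
  have hd : ∀ i, Squarefree (e i) ∧ ∀ p ∈ (e i).primeFactors, R p := by
    intro i
    have h1 := (h.pr (e i) (hJR _ (heJ i))).1
    refine ⟨h1.squarefree, fun p hp => ?_⟩
    rw [h1.primeFactors, Finset.mem_singleton] at hp
    rw [hp]
    exact hJR _ (heJ i)
  have h1 := h.two hd (ind_primes (fun i => (h.pr (e i) (hJR _ (heJ i))).1) hinj) (x := x')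
    (fun i => by
      apply Subtype.ext
      show (√(e i : ℝ)) ^ 2 = _
      rw [Real.sq_sqrt (Nat.cast_nonneg _)]
      simp) (adjoin_top x' fun i => rfl)
  have h2 := h1 ⟨X, hXK⟩ ⟨Y, hYK⟩ (by
    apply Subtype.ext
    simp only [IntermediateField.coe_pow, IntermediateField.coe_add, IntermediateField.coe_mul]
    push_cast
    exact hXY)
  have h3 := congrArg (fun z : IntermediateField.adjoin ℚ (Set.range x) => (z : ℝ)) h2
  simp only [IntermediateField.coe_mul] at h3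
  push_cast at h3
  exact h3

end Q283.IN
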