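import Pool.Agent.Q283.IN.E

/-!
# The density of the primes which do not change the matrix
-/

set_option autoImplicit false
set_option linter.unusedSectionVars false

open scoped Classical

namespace Q283.IN

open Finset Filter Topology
open Q283.GM hiding DD rk_eq
open Q283.GW
open Q283.XF (inert_density Cl3 dprop Base)
open Q283.TW (nrp)

theorem det_one_add {n : Type} [Fintype n] [DecidableEq n] (v : n → ZMod 2) :
    ((1 : Matrix n n (ZMod 2)) + Matrix.diagonal v).det ≠ 0 ↔ v = 0 := by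
  have e : (1 : Matrix n n (ZMod 2)) + Matrix.diagonal v = Matrix.diagonal (1 + v) := by
    rw [← Matrix.diagonal_one, Matrix.diagonal_add]
    rfl
  rw [e, Matrix.det_diagonal, Finset.prod_ne_zero_iff]
  constructor
  · intro h
    funext i
    have h1 := h i (Finset.mem_univ i)
    rw [Pi.add_apply, Pi.one_apply] at h1
    have key : ∀ a : ZMod 2, 1 + a ≠ 0 → a = 0 := by decide
    exact key _ h1
  · rintro rfl i -
    simp

theorem dprop_one (n : Type) [Fintype n] [DecidableEq n] :
    dprop (1 : Matrix n n (ZMod 2)) = (1 / 2) ^ Fintype.card n := by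
  unfold dprop
  have h1 : Nat.card {v : n → ZMod 2 // ((1 : Matrix n n (ZMod 2)) + Matrix.diagonal v).det ≠ 0} =
      1 := by
    rw [Nat.card_eq_one_iff_unique]
    refine ⟨⟨fun a b => Subtype.ext ?_⟩, ⟨⟨0, (det_one_add 0).2 rfl⟩⟩⟩
    rw [(det_one_add a.1).1 a.2, (det_one_add b.1).1 b.2]
  rw [h1, Nat.cast_one, one_div, one_div, inv_pow]

/-- the primes inert in `ℚ(√-7)` -/
theorem inert_iff {p : ℕ} (h1 : p.Prime) (h2 : p % 4 = 1) :
    ¬ IsSquare (-7 : ZMod p) ↔ ¬ ρ49.Φ.A p := by
  constructor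
  · intro h h3
    exact h (spl_A h3).sq
  · intro h
    exact (inq_B h1 h2 h).ns

theorem cardg {s : Finset ℕ} {P Q : ℕ → Prop} {i1 : DecidablePred P} {i2 : DecidablePred Q}
    (h : ∀ p, P p ↔ Q p) : (s.filter P).card = (s.filter Q).card := by
  congr 1
  ext p
  rw [Finset.mem_filter, Finset.mem_filter, h]

/-- **the density** -/
theorem dens {N : ℕ} (hN0 : N ≠ 0) (hN : ∀ p ∈ N.primeFactors, p % 4 = 1) :
    Tendsto (fun X : ℕ => (((range (X + 1)).filter fun r : ℕ => (r.Prime ∧ r % 4 = 1 ∧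
        ¬ ρ49.Φ.A r) ∧ ¬ r ∣ N ∧ ∀ p ∈ PA N.primeFactors, IsSquare (p : ZMod r)).card : ℝ) /
      (((range (X + 1)).filter fun r : ℕ => r.Prime ∧ r % 4 = 1 ∧ ¬ ρ49.Φ.A r).card : ℝ)) atTop
      (𝓝 ((1 / 2) ^ (PA N.primeFactors).card)) := by
  have hb : Base N.primeFactors 3 := by
    refine ⟨by norm_num, by norm_num, by norm_num, fun h => ?_, fun q hq => ?_⟩
    · have := hN 3 h
      norm_num at this
    · have h1 := hN q hq
      refine ⟨Nat.prime_of_mem_primeFactors hq, ?_, ?_⟩
      · rintro rfl; norm_num at h1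
      · rintro rfl; norm_num at h1
  have hS : PA N.primeFactors ⊆ N.primeFactors := Finset.filter_subset _ _
  have h := inert_density hb 0 hS 1
    (fun r => ¬ r ∣ N ∧ ∀ p ∈ PA N.primeFactors, IsSquare (p : ZMod r)) (by
      intro p hp hpN
      have hpr := hp.1
      rw [det_one_add]
      constructor
      · rintro ⟨-, h2⟩
        funext q
        unfold nrp
        rw [if_pos (h2 q q.2)]
        rfl
      · intro h2
        refine ⟨fun h3 => hpN (Nat.mem_primeFactors.2 ⟨hpr, h3, hN0⟩), fun q hq => ?_⟩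
        have h3 := congrFun h2 ⟨q, hq⟩
        unfold nrp at h3
        by_contra h4
        simp only at h3
        rw [if_neg h4, Pi.zero_apply] at h3
        exact one_ne_zero h3)
  rw [dprop_one, Fintype.card_coe] at h
  have hcl : ∀ p : ℕ, Cl3 3 0 p ↔ (p.Prime ∧ p % 4 = 1 ∧ ¬ ρ49.Φ.A p) := by
    intro p
    unfold Cl3
    constructor
    · rintro ⟨h1, h2, h3, -⟩
      exact ⟨h1, h2, (inert_iff h1 h2).1 h3⟩
    · rintro ⟨h1, h2, h3⟩
      refine ⟨h1, h2, (inert_iff h1 h2).2 h3, by rintro rfl; norm_num at h2,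
        (p : ZMod 3) ^ 2, by simp⟩
  refine h.congr fun X => ?_
  rw [cardg (fun p => and_congr_left' (hcl p)), cardg hcl]

end Q283.IN
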