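import Pool.Agent.Q283.IN.F

/-!
# The number of the points
-/

set_option autoImplicit false
set_option linter.unusedSectionVars false

open scoped Classical
open WeierstrassCurve

namespace Q283.IN

open Pool.Agent.W307.RS (ShK)
open Q283.GM hiding DD rk_eq
open Q283.GW
open Q283.XF (nf)
open Pool.Agent.Y687 (DD qs DD_natAbs)
open Pool.Agent.Y687.JQ (DD_mul DD_ne)
open Q283.J2 (RZ49 ca cb disc_b)

/-- two points -/
theorem card_two {K : Type} [Field K] [CharZero K] {M : K} (hM : M ≠ 0) (h : Two K M) :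
    Nat.card (ShK (-2835 * M ^ 2) (-71442 * M ^ 3)).toAffine.Point = 2 := by
  have hns : (ShK (-2835 * M ^ 2) (-71442 * M ^ 3)).toAffine.Nonsingular (63 * M) 0 := by
    rw [Affine.nonsingular_iff, Affine.equation_iff]
    simp only [ShK, zero_mul, mul_zero, add_zero]
    refine ⟨by ring, Or.inl ?_⟩
    intro h
    have h3 : (9072 : K) * M ^ 2 = 0 := by linear_combination -h
    rcases mul_eq_zero.1 h3 with h4 | h4
    · exact absurd h4 (by norm_num)
    · exact pow_ne_zero 2 hM h4
  have hall : ∀ P : (ShK (-2835 * M ^ 2) (-71442 * M ^ 3)).toAffine.Point,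
      P = 0 ∨ P = .some _ _ hns := by
    intro P
    match P with
    | 0 => exact Or.inl rfl
    | .some X Y hP =>
      right
      have h3 := (Affine.equation_iff _ _).1 hP.1
      simp only [ShK, zero_mul, add_zero] at h3
      have h4 := h X Y h3
      have h5 : Y = 0 := by
        rw [h4] at h3
        have h6 : Y ^ 2 = 0 := by rw [h3]; ring
        exact pow_eq_zero_iff (two_ne_zero) |>.1 h6
      rw [Affine.Point.some.injEq]
      exact ⟨h4, h5⟩
  have e : (Set.univ : Set (ShK (-2835 * M ^ 2) (-71442 * M ^ 3)).toAffine.Point) =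
      {0, .some _ _ hns} := by
    ext P
    simp only [Set.mem_univ, Set.mem_insert_iff, Set.mem_singleton_iff, true_iff]
    exact hall P
  rw [← Set.ncard_univ, e, Set.ncard_pair]
  exact fun h => Affine.Point.some_ne_zero _ h.symm

/-- the data for a product of two numbers of the class -/
theorem dt_of {m D N : ℕ} (hm : C4 m) (hD : C4 D) (hN0 : N ≠ 0) (hmN : m ∣ N) (hDN : D ∣ N)
    (hRZ : RZ49 ((m : ℤ) * D)) :
    Dt (symmDiff D.primeFactors m.primeFactors) ((m : ℤ) * D)
      (DD (D.primeFactors ∩ m.primeFactors))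
      (fun r => (r.Prime ∧ r % 4 = 1 ∧ ¬ ρ49.Φ.A r) ∧ ¬ r ∣ N ∧
        ∀ p ∈ PA N.primeFactors, IsSquare (p : ZMod r)) := by
  have hsub : ∀ p, p ∈ symmDiff D.primeFactors m.primeFactors → p ∈ N.primeFactors := by
    intro p hp
    rcases Finset.mem_symmDiff.1 hp with h | h
    · exact Nat.primeFactors_mono hDN hN0 h.1
    · exact Nat.primeFactors_mono hmN hN0 h.1
  have heq : (m : ℤ) * D = DD (symmDiff D.primeFactors m.primeFactors) *
      DD (D.primeFactors ∩ m.primeFactors) ^ 2 := by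
    rw [← DD_mul, ← hD.eq, ← hm.eq, mul_comm]
  refine ⟨hD.2.symmDiff hm.2, ?_, ?_, heq, ?_, fun r hr => ⟨hr.1.1, hr.1.2.1, hr.1.2.2,
    fun p hp => hr.2.2 p ?_⟩, fun r hr h => ?_⟩
  · rw [← rz_mulCF hD.2 hm.2, ← hD.eq, ← hm.eq, mul_comm]
    exact hRZ
  · exact DD_ne fun p hp => (hD.2 p (Finset.mem_inter.1 hp).1).1.ne_zero
  · intro h3
    have hp : Prime (3 : ℤ) := Int.prime_three
    have key : ∀ a : ℕ, C4 a → ¬ (3 : ℤ) ∣ a := by
      intro a ha h4
      have h5 : 3 ∣ a := by exact_mod_cast h4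
      have h6 := (ha.2 3 (Nat.mem_primeFactors.2 ⟨by norm_num, h5, ha.1.ne_zero⟩)).2
      norm_num at h6
    rcases hp.dvd_or_dvd h3 with h4 | h4
    · exact key m hm h4
    · exact key D hD h4
  · unfold PA at hp ⊢
    rw [Finset.mem_filter] at hp ⊢
    exact ⟨hsub p hp.1, hp.2⟩
  · exact hr.2.1 (Nat.dvd_of_mem_primeFactors (hsub r h))

end Q283.IN
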