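import Pool.Agent.Q283.IN.G

/-!
# The field is infinite
-/

set_option autoImplicit false
set_option linter.unusedSectionVars false

open scoped Classical

namespace Q283.IN

open Q283.GM hiding DD rk_eq
open Q283.GW
open Q283.XF (Base exists_prime_sym)

/-- the field generated by the square roots of infinitely many primes is infinite -/
theorem inf_dim {R : ℕ → Prop} (hR : ∀ r, R r → r.Prime) (hinf : {r : ℕ | R r}.Infinite) :
    ¬ FiniteDimensional ℚ (IntermediateField.adjoin ℚ {z : ℝ | ∃ r : ℕ, R r ∧ z ^ 2 = r}) := by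
  intro hfin
  set L := IntermediateField.adjoin ℚ {z : ℝ | ∃ r : ℕ, R r ∧ z ^ 2 = r} with hL
  obtain ⟨J, hJR, hJc⟩ := hinf.exists_subset_card_eq (Module.finrank ℚ L)
  set e : Fin J.card → ℕ := fun i => (J.equivFin.symm i : ℕ) with he
  have heJ : ∀ i, R (e i) := fun i => hJR (J.equivFin.symm i).2
  have hinj : Function.Injective e := fun a b hab => J.equivFin.symm.injective (Subtype.ext hab)
  set x : Fin J.card → ℝ := fun i => √(e i : ℝ) with hx
  have hle : IntermediateField.adjoin ℚ (Set.range x) ≤ L := by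
    rw [IntermediateField.adjoin_le_iff]
    rintro _ ⟨i, rfl⟩
    exact IntermediateField.subset_adjoin ℚ _ ⟨e i, heJ i, Real.sq_sqrt (Nat.cast_nonneg _)⟩
  have hfd : FiniteDimensional ℚ (IntermediateField.adjoin ℚ (Set.range x)) := by
    refine IntermediateField.finiteDimensional_adjoin fun z hz => ?_
    obtain ⟨i, rfl⟩ := hz
    refine ⟨Polynomial.X ^ 2 - Polynomial.C (e i : ℚ),
      Polynomial.monic_X_pow_sub_C _ (by norm_num), ?_⟩
    have : (√(e i : ℝ)) ^ 2 = (e i : ℝ) := Real.sq_sqrt (Nat.cast_nonneg _)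
    simp [hx, this]
  have hNF : NumberField (IntermediateField.adjoin ℚ (Set.range x)) := ⟨⟩
  let x' : Fin J.card → IntermediateField.adjoin ℚ (Set.range x) := fun i =>
    ⟨x i, IntermediateField.subset_adjoin ℚ _ ⟨i, rfl⟩⟩
  have hx2 : ∀ i, x' i ^ 2 = ((e i : ℤ) : IntermediateField.adjoin ℚ (Set.range x)) := by
    intro i
    apply Subtype.ext
    show (√(e i : ℝ)) ^ 2 = _
    rw [Real.sq_sqrt (Nat.cast_nonneg _)]
    simp
  have htop := adjoin_top x' fun i => rfl
  have hI := ind_primes (fun i => hR _ (heJ i)) hinj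
  have := Pool.Agent.Y73.QMQ1.gal_of hx2 htop
  have h1 := Pool.Agent.Y73.QMQ1.card_gal hI hx2 htop
  rw [IsGalois.card_aut_eq_finrank] at h1
  have h2 : Module.finrank ℚ (IntermediateField.adjoin ℚ (Set.range x)) ≤ Module.finrank ℚ L :=
    LinearMap.finrank_le_finrank_of_injective
      (f := (IntermediateField.inclusion hle).toLinearMap) (IntermediateField.inclusion hle).injective
  rw [h1, hJc] at h2
  exact absurd h2 (not_le.2 Nat.lt_two_pow_self)

/-- infinitely many neutral primes -/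
theorem inf_neutral {N : ℕ} (hN0 : N ≠ 0) (hN : ∀ p ∈ N.primeFactors, p % 4 = 1) :
    {r : ℕ | (r.Prime ∧ r % 4 = 1 ∧ ¬ ρ49.Φ.A r) ∧ ¬ r ∣ N ∧
      ∀ p ∈ PA N.primeFactors, IsSquare (p : ZMod r)}.Infinite := by
  have hb : Base N.primeFactors 3 := by
    refine ⟨by norm_num, by norm_num, by norm_num, fun h => ?_, fun q hq => ?_⟩
    · have := hN 3 h
      norm_num at this
    · have h1 := hN q hq
      refine ⟨Nat.prime_of_mem_primeFactors hq, ?_, ?_⟩
      · rintro rfl; norm_num at h1
      · rintro rfl; norm_num at h1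
  refine Set.infinite_of_forall_exists_gt fun B => ?_
  obtain ⟨p, hpB, hp, hp4, hp7, -, hps⟩ := exists_prime_sym hb 3 (by norm_num) (fun _ => True)
    (max B N)
  have h7 : p % 7 = 3 := hp7
  refine ⟨p, ⟨⟨hp, hp4, fun h => ?_⟩, fun h => ?_, fun q hq => ?_⟩,
    lt_of_le_of_lt (le_max_left _ _) hpB⟩
  · have := (A49.1 h).2.2
    omega
  · have h1 := Nat.le_of_dvd (Nat.pos_of_ne_zero hN0) h
    have h2 := lt_of_le_of_lt (le_max_right B N) hpB
    omega
  · exact (hps q (Finset.mem_filter.1 hq).1).2 trivial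

end Q283.IN
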